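import Pool.Agent.DDC.StmtsM
import Pool.Agent.DDC.StmtsPr

set_option autoImplicit false

/-!
# Squad DDC, row MAC (helper32)
-/

namespace Pool.Agent.DDC.H32

open Pool.Agent.DDC
open scoped BigOperators Topology
open Filter

theorem mac (pba : PbaStmt) (acn : AcnStmt) (smv : SmvStmt) : MacStmt := by
  obtain ⟨-, hmono, hadd, hmul, -, -, -, -, -, -⟩ := pba
  obtain ⟨C, hC, hacn⟩ := acn
  refine ⟨C + 888, by positivity, ?_⟩
  intro δ hδ0 hδ1
  set ε : ℝ := δ ^ ((1 / 3) : ℝ) with hε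
  have hε0 : 0 < ε := Real.rpow_pos_of_pos hδ0 _
  have hε1 : ε ≤ 1 := Real.rpow_le_one hδ0.le hδ1 (by norm_num)
  have hε3 : ε ^ 3 = δ := by
    rw [hε, ← Real.rpow_natCast, ← Real.rpow_mul hδ0.le]
    norm_num
  obtain ⟨m0, hm0⟩ := hacn ε hε0 hε1
  refine ⟨max m0 ⌈1 / δ⌉₊, ?_⟩
  intro m hm z
  have hm1 : m0 ≤ m := (le_max_left _ _).trans hm
  have hm2 : 1 ≤ δ * m := by
    have h1 : ⌈1 / δ⌉₊ ≤ m := (le_max_right _ _).trans hm
    have h2 : 1 / δ ≤ m := (Nat.le_ceil _).trans (by exact_mod_cast h1)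
    rw [div_le_iff₀ hδ0] at h2
    linarith
  filter_upwards [hm0 m hm1 z, smv δ m z hδ0 hδ1 hm2] with k hk1 hk2
  have hpt : P2 k (fun M N => ¬ BigLoop (loopsOf M N) z m (δ * m)) ≤
      E2 k (fun M N => (if |hg (H M N) z m (tg m)| ≤ ε then (1 : ℝ) else 0) +
        (ε ^ 2)⁻¹ * (iv (¬ BigLoop (loopsOf M N) z m (δ * m)) * (hg (H M N) z m (tg m)) ^ 2)) := by
    unfold P2
    apply hmono
    intro M _ N _
    by_cases hB : BigLoop (loopsOf M N) z m (δ * m)
    · have h0 : iv (¬ BigLoop (loopsOf M N) z m (δ * m)) = 0 := by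
        unfold iv
        rw [if_neg (not_not.2 hB)]
      rw [if_neg (not_not.2 hB), h0]
      have : (0 : ℝ) ≤ if |hg (H M N) z m (tg m)| ≤ ε then (1 : ℝ) else 0 := by
        split_ifs <;> norm_num
      linarith
    · have h0 : iv (¬ BigLoop (loopsOf M N) z m (δ * m)) = 1 := by
        unfold iv
        rw [if_pos hB]
      rw [if_pos hB, h0, one_mul]
      by_cases hX : |hg (H M N) z m (tg m)| ≤ ε
      · rw [if_pos hX]
        have : 0 ≤ (ε ^ 2)⁻¹ * (hg (H M N) z m (tg m)) ^ 2 := by positivity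
        linarith
      · rw [if_neg hX, zero_add]
        push Not at hX
        have h1 : ε ^ 2 ≤ (hg (H M N) z m (tg m)) ^ 2 := by
          rw [← sq_abs (hg (H M N) z m (tg m))]
          exact pow_le_pow_left₀ hε0.le hX.le 2
        rw [inv_mul_eq_div, le_div_iff₀ (by positivity), one_mul]
        exact h1
  rw [hadd, hmul] at hpt
  have h1 : E2 k (fun M N => (if |hg (H M N) z m (tg m)| ≤ ε then (1 : ℝ) else 0)) ≤ C * ε := by
    exact hk1
  have h2 : (ε ^ 2)⁻¹ * E2 k (fun M N => iv (¬ BigLoop (loopsOf M N) z m (δ * m)) *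
      (hg (H M N) z m (tg m)) ^ 2) ≤ 888 * ε := by
    rw [inv_mul_eq_div, div_le_iff₀ (by positivity)]
    refine hk2.trans (le_of_eq ?_)
    rw [← hε3]
    ring
  linarith

end Pool.Agent.DDC.H32
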